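import Pool.Agent.Y254.HK.Sets
import Pool.Agent.Y674.HK.HausG

/-!
# Hausdorff dimension of Kakeya sets: a hybrid of the hairbrush method and of the Katz-Tao iteration
-/

set_option autoImplicit false

open MeasureTheory

namespace Pool.Agent.Results.MP_b1773a_an.HybridKakeya

theorem result (n : ℕ) (hn : 2 ≤ n) (c : ℝ) (hc1 : 1 ≤ c)
    (hc : 0 ≤ ((n : ℝ) - 1) * (c ^ 3 - 4 * c + 2) + c * (3 * c - 1 - c ^ 2))
    (U K : Set (EuclideanSpace ℝ (Fin n)))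
    (hU : (volume : Measure (EuclideanSpace ℝ (Fin n))).toSphere
      {e : Metric.sphere (0 : EuclideanSpace ℝ (Fin n)) 1 | (e : EuclideanSpace ℝ (Fin n)) ∈ U} ≠ 0)
    (hK : ∀ e ∈ U, ‖e‖ = 1 → ∃ a : EuclideanSpace ℝ (Fin n), 0 < volume {t : ℝ | a + t • e ∈ K}) :
    ENNReal.ofReal (1 + ((n : ℝ) - 1) / c) ≤ dimH K := by
  obtain ⟨d, rfl⟩ : ∃ d, n = d + 1 := ⟨n - 1, by omega⟩
  have hd : 1 ≤ d := by omega
  have e1 : (((d + 1 : ℕ) : ℝ) - 1) = d := by push_cast; ring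
  rw [e1] at hc ⊢
  refine Pool.Agent.Y674.HK.t_hausg d c hc1 (Pool.Agent.Y254HK.dense_all hd hc1 hc) (U ∩ {e | ‖e‖ = 1}) K
    (fun e he => ⟨he.2, hK e he.1 he.2⟩) ?_
  have e2 : {e : Metric.sphere (0 : EuclideanSpace ℝ (Fin (d + 1))) 1 |
      (e : EuclideanSpace ℝ (Fin (d + 1))) ∈ U ∩ {e | ‖e‖ = 1}} =
      {e : Metric.sphere (0 : EuclideanSpace ℝ (Fin (d + 1))) 1 |
        (e : EuclideanSpace ℝ (Fin (d + 1))) ∈ U} := by
    ext e
    simp only [Set.mem_setOf_eq, Set.mem_inter_iff]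
    exact ⟨fun h => h.1, fun h => ⟨h, by simpa using e.2⟩⟩
  rw [e2]
  exact hU

end Pool.Agent.Results.MP_b1773a_an.HybridKakeya
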