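import Pool.Agent.Y245.CplxLines

set_option autoImplicit false

/-!
# MP_b1773a: iterated Kakeya sets

`ℝ^n` is `E n = EuclideanSpace ℝ (Fin n)`.  A `k`-plane of `ℝ^n` is the range of an affine
isometric embedding `f : E k →ᵃⁱ[ℝ] E n`, its normal space is `normal f`.  A family of `k`-planes
`(f s)`, `s ∈ Ω`, over an arbitrary measure space `(Ω, μ)` is *spread with exponent `β`*
(`Spread μ f β`, in `Pool.Agent.Y245.Iter`) if for all `s` and all `r > 0` the set of `s'` for which
some unit normal vector of the plane number `s` is within `r` of the normal space of the plane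
number `s'` has (outer) measure at most `C r^β`.  Nothing is assumed on the positions of the planes,
not even measurability.

`Iterated n K` (in `Pool.Agent.Y245.Iter`): either `dim_H K = n`, or, recursively, there are `k`
with `n / 2 ≤ k < n` and a family of `k`-planes, spread with exponent `n - k`, such that for a set
of parameters of positive outer measure the section of `K` with the plane is an iterated Kakeya set
of this plane.  We prove that all iterated Kakeya sets in `ℝ^n` have Hausdorff dimension `n`.

Examples.  Every planar Kakeya set is iterated (`Pool.Agent.Y245.Pl.planar`).  The Kakeya sets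
in `ℝ^4 = ℂ^2` whose lines with directions in a common complex line lie in a common translate of
this complex line are iterated, with `k = 2` (`Pool.Agent.Y245.Pl.cplx`, and `complex_lines` below).
-/

open MeasureTheory Set Filter Topology ENNReal NNReal Metric

namespace Pool.Agent.Results.MP_b1773a_an.IteratedKakeya

open Pool.Agent.Y245.Pl

theorem dimH_le {n : ℕ} (K : Set (E n)) : dimH K ≤ n := by
  refine (dimH_mono (subset_univ K)).trans ?_
  rw [Real.dimH_univ_eq_finrank, finrank_euclideanSpace_fin]

/-- **Iterated Kakeya sets have full Hausdorff dimension.** -/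
theorem result (n : ℕ) (K : Set (E n)) (h : Iterated n K) : dimH K = n :=
  le_antisymm (dimH_le K) h.dim

/-- The Kakeya conjecture in `ℝ^4` for Kakeya sets adapted to complex lines: an illustration. -/
theorem complex_lines (a : E 4 → E 4) (K : Set (E 4))
    (hK : ∀ e : E 4, ‖e‖ = 1 → 1 ≤ dimH {t : ℝ | a e + t • e ∈ K})
    (ha : ∀ e : E 4, ‖e‖ = 1 → ∀ θ : ℝ, ∃ x y : ℝ,
      a (Real.cos θ • e + Real.sin θ • mulI e) - a e = x • e + y • mulI e) : dimH K = 4 := by
  have h := result 4 K (cplx a hK ha)
  exact_mod_cast h

end Pool.Agent.Results.MP_b1773a_an.IteratedKakeya
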