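import Pool.Agent.Y245.Meet

set_option autoImplicit false

/-!
# MP_b1773a: Kakeya sets all of whose lines meet a fixed smooth curve or manifold

Let `n ≥ 3` and let `K ⊆ ℝ^n` contain, for every direction `e` in a set of positive measure, a part of
positive length of a line parallel to `e` that meets a fixed set `Z` (for instance: `K` is a Kakeya set
and the lines spanned by its unit segments meet `Z`).  Let `Z` be covered by the images of countably
many `C^k` maps defined on open subsets of `ℝ^m`, where `m ≥ 1` and `1 ≤ k ≤ ∞`.  Then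
`dim_H K ≥ n - m + 1 - 1 / k`.  In particular `dim_H K = n` if `Z` is a `C^∞` curve, and
`dim_H K ≥ n - m + 1` if `Z` is an `m`-dimensional `C^∞` submanifold.
-/

open MeasureTheory Set Metric Filter
open scoped ENNReal

namespace Pool.Agent.Results.MP_b1773a_an.LinesMeetingManifold

/-- Euclidean space `ℝ^n`. -/
abbrev E (n : ℕ) : Type := EuclideanSpace ℝ (Fin n)

/-- The surface measure on the unit sphere. -/
noncomputable def surf (n : ℕ) : Measure (sphere (0 : E n) 1) := (volume : Measure (E n)).toSphere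

/-- For every direction `e ∈ S` there is a line parallel to `e` which passes through a point `z` of
`Z` and meets `K` in a set of positive length. -/
def LinesThrough {n : ℕ} (S : Set (sphere (0 : E n) 1)) (Z K : Set (E n)) : Prop :=
  ∀ e ∈ S, ∃ z ∈ Z, volume {t : ℝ | z + t • (e : E n) ∈ K} ≠ 0

/-- `Z ⊆ ℝ^n` is covered by the images of countably many maps of class `C^k`, defined on open
subsets of `ℝ^m` (`k = ⊤` means `C^∞`). -/
def CoveredBy {n : ℕ} (m : ℕ) (k : ℕ∞) (Z : Set (E n)) : Prop :=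
  ∃ (U : ℕ → Set (E m)) (φ : ℕ → E m → E n),
    (∀ j, IsOpen (U j) ∧ ContDiffOn ℝ k (φ j) (U j)) ∧ Z ⊆ ⋃ j, φ j '' U j

theorem finite_order (n m k : ℕ) (hn : 3 ≤ n) (hm : 1 ≤ m) (hk : 1 ≤ k)
    (S : Set (sphere (0 : E n) 1)) (hS : surf n S ≠ 0) (Z K : Set (E n)) (hZ : CoveredBy m k Z)
    (hK : LinesThrough S Z K) : (n : ℝ≥0∞) + 1 ≤ dimH K + m + ((k : ℕ∞) : ℝ≥0∞)⁻¹ := by
  obtain ⟨U, φ, hU, hZ⟩ := hZ
  obtain ⟨d, rfl⟩ : ∃ d, n = d + 1 := ⟨n - 1, by omega⟩
  obtain ⟨l, rfl⟩ : ∃ l, m = l + 1 := ⟨m - 1, by omega⟩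
  have h := Pool.Agent.Y245.PC.dim_meet (d := d) (l := l) (by omega) hk (fun j => (hU j).1)
    (fun j => (hU j).2) hS (K := K) (fun e he => by
      obtain ⟨z, h1, h2⟩ := hK e he
      exact ⟨z, hZ h1, h2⟩)
  have hk0 : (0:ℝ) < k := by exact_mod_cast hk
  have e1 : ((k : ℕ∞) : ℝ≥0∞)⁻¹ = ENNReal.ofReal (1 / (k:ℝ)) := by
    rw [one_div, ENNReal.ofReal_inv_of_pos hk0]
    simp
  calc ((d + 1 : ℕ) : ℝ≥0∞) + 1 = ENNReal.ofReal ((d:ℝ) + 1 + 1) := by
        rw [ENNReal.ofReal_add (by positivity) (by norm_num),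
          ENNReal.ofReal_add (by positivity) (by norm_num)]
        simp
    _ = ENNReal.ofReal (((d:ℝ) + 1 - (l + 1 / k)) + (l + 1 + 1 / k)) := by
        congr 1
        ring
    _ ≤ ENNReal.ofReal ((d:ℝ) + 1 - (l + 1 / k)) + ENNReal.ofReal ((l:ℝ) + 1 + 1 / k) :=
        ENNReal.ofReal_add_le
    _ ≤ dimH K + ENNReal.ofReal ((l:ℝ) + 1 + 1 / k) := by gcongr
    _ = dimH K + (((l + 1 : ℕ) : ℝ≥0∞) + ((k : ℕ∞) : ℝ≥0∞)⁻¹) := by
        rw [e1]
        congr 1
        rw [ENNReal.ofReal_add (by positivity) (by positivity)]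
        congr 1
        rw [ENNReal.ofReal_add (by positivity) (by norm_num)]
        simp
    _ = _ := by rw [add_assoc]

/-- **Kakeya sets whose lines meet a fixed smooth curve or manifold**: `dim_H K ≥ n - m + 1 - 1 / k`
(written as an inequality in `[0, ∞]`, with `1 / k = 0` for `k = ∞`), and `dim_H K = n` for `C^∞`
curves. -/
theorem result (n m : ℕ) (k : ℕ∞) (hn : 3 ≤ n) (hm : 1 ≤ m) (hk : 1 ≤ k)
    (S : Set (sphere (0 : E n) 1)) (hS : surf n S ≠ 0) (Z K : Set (E n)) (hZ : CoveredBy m k Z)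
    (hK : LinesThrough S Z K) :
    (n : ℝ≥0∞) + 1 ≤ dimH K + m + (k : ℝ≥0∞)⁻¹ ∧ (m = 1 → k = ⊤ → dimH K = n) := by
  have h1 : (n : ℝ≥0∞) + 1 ≤ dimH K + m + (k : ℝ≥0∞)⁻¹ := by
    induction k using ENat.recTopCoe with
    | coe k => exact finite_order n m k hn hm (by exact_mod_cast hk) S hS Z K hZ hK
    | top =>
      have h3 : ∀ k : ℕ, (n : ℝ≥0∞) + 1 ≤ dimH K + m + ((k + 1 : ℕ) : ℝ≥0∞)⁻¹ := by
        intro k
        obtain ⟨U, φ, hU, hZ'⟩ := hZ
        have h4 := finite_order n m (k + 1) hn hm (by omega) S hS Z K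
          ⟨U, φ, fun j => ⟨(hU j).1, (hU j).2.of_le (by exact_mod_cast le_top)⟩, hZ'⟩ hK
        simpa using h4
      have h5 : Tendsto (fun k : ℕ => dimH K + m + ((k + 1 : ℕ) : ℝ≥0∞)⁻¹) atTop
          (nhds (dimH K + m + 0)) := by
        apply Tendsto.const_add
        exact (tendsto_add_atTop_iff_nat 1).2 ENNReal.tendsto_inv_nat_nhds_zero
      have h6 := ge_of_tendsto' h5 h3
      simpa using h6
  refine ⟨h1, fun hm1 hk1 => le_antisymm ?_ ?_⟩
  · have h := dimH_mono (subset_univ K)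
    rw [Real.dimH_univ_eq_finrank] at h
    simpa using h
  · subst hm1
    subst hk1
    have h2 : (n : ℝ≥0∞) + 1 ≤ dimH K + 1 := by simpa using h1
    exact (ENNReal.add_le_add_iff_right ENNReal.one_ne_top).1 h2

end Pool.Agent.Results.MP_b1773a_an.LinesMeetingManifold
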